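import Pool.Agent.N510.CT.Fib
import Pool.Agent.N510.CT.KOne

set_option autoImplicit false

/-!
# Torsion of controlled contractible complexes at the norm `3 / √2`

Let `φ : E → G` be a surjective homomorphism of groups.  The torsion of a contractible based complex
over `RE` whose boundary operator (or a contraction of square zero) is controlled over `G` by a
matrix of `ℓ²`-operator norm at most `3 / √2` (the bound included) comes from subgroups of `E` with
virtually cyclic image in `G`.  For every larger bound this is, already for `E = G`, a condition on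
no class at all: every class in `K_1(RG)` is the torsion of such a complex.
-/

namespace Pool.Agent.Results.MP_5d3e93_al.CriticalComplexes

open TH57.Thr TH6.LF TH6.PF TH6.CX TH6.FB Matrix Pool.Agent.N510

/-- the support of the matrix `A` over `ℤG` is symmetric, or `A * A = 0` and no two opposite
entries of `A` are both nonzero (as for the boundary operator of a complex) -/
def SymOrBoundary {G ι : Type} [Group G] [Fintype ι] [DecidableEq ι]
    (A : Matrix ι ι (MonoidAlgebra ℤ G)) : Prop :=
  (∀ i j g, (A i j).coeff g ≠ 0 → (A j i).coeff g⁻¹ ≠ 0) ∨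
    (A * A = 0 ∧ ∀ i j, A i j ≠ 0 → A j i = 0)

/-- For some `m` and some `C` in the commutator subgroup, `diag(U, 1_m) * C` is the torsion matrix of
a based complex over `RG` with boundary operator `d` and contraction `s`, `s * s = 0`, where `d` is
controlled over `G` by a matrix `A` of norm at most `c` which is itself a boundary operator:
`A * A = 0` and no two opposite entries of `A` are both nonzero. -/
def IsTorsion {R : Type} [Ring R] {G : Type} [Group G] {n : ℕ}
    (U : (Matrix (Fin n) (Fin n) (MonoidAlgebra R G))ˣ) (c : ℝ) : Prop :=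
  ∃ (m : ℕ) (C : (Matrix (Fin n ⊕ Fin m) (Fin n ⊕ Fin m) (MonoidAlgebra R G))ˣ)
    (ι : Type) (_ : Fintype ι) (_ : DecidableEq ι) (deg : ι → ℤ)
    (d s : Matrix ι ι (MonoidAlgebra R G)) (A : Matrix ι ι (MonoidAlgebra ℤ G))
    (e : {i // Odd (deg i)} ≃ {i // Even (deg i)}) (f : Fin n ⊕ Fin m ≃ {i // Odd (deg i)}),
    C ∈ commutator (Matrix (Fin n ⊕ Fin m) (Fin n ⊕ Fin m) (MonoidAlgebra R G))ˣ ∧
    IsBd deg d ∧ IsCt deg d s ∧ s * s = 0 ∧ (A * A = 0 ∧ ∀ i j, A i j ≠ 0 → A j i = 0) ∧
    NormLE A c ∧ Controlled (MonoidHom.id G) A d ∧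
    (torMatrix deg d s e).submatrix f f = fromBlocks U.val 0 0 1 * C.val

/-- 1. Let `φ : E → G` be a surjective homomorphism of groups, `R` a ring and `d` the boundary
operator of a based complex over `RE` with contraction `s`. Suppose that `d`, or some contraction `t`
with `t * t = 0`, is controlled over `G` by a matrix `A` over `ℤG` of operator norm at most
`3 / √2` whose support is symmetric or which is itself a boundary operator. Then for every bijection
`e` from the basis elements of odd degree to those of even degree the matrix of `d + s` from the odd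
to the even part (the torsion of the complex) is a product of invertible matrices over group rings
`RH` of subgroups `H` of `E` with virtually cyclic image in `G`.
2. If `c > 3 / √2` then every invertible matrix over every group ring `RG` is, after stabilisation and
up to a factor in the commutator subgroup, the torsion matrix of a complex over `RG` whose boundary
operator is controlled over `G` by a matrix of norm at most `c`. -/
theorem result :
    (∀ (R : Type) [Ring R] (E G : Type) [Group E] [Group G] (φ : E →* G), Function.Surjective φ →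
      ∀ (ι : Type) [Fintype ι] [DecidableEq ι] (deg : ι → ℤ)
        (d s : Matrix ι ι (MonoidAlgebra R E)), IsBd deg d → IsCt deg d s →
      ∀ (A : Matrix ι ι (MonoidAlgebra ℤ G)) (c : ℝ), SymOrBoundary A → 0 < c → c ^ 2 ≤ 9 / 2 →
        NormLE A c → (Controlled φ A d ∨ ∃ t, IsCt deg d t ∧ t * t = 0 ∧ Controlled φ A t) →
      ∀ (e : {i // Odd (deg i)} ≃ {i // Even (deg i)}),
        ∃ T : (Matrix {i // Odd (deg i)} {i // Odd (deg i)} (MonoidAlgebra R E))ˣ,
          T.val = torMatrix deg d s e ∧ T ∈ FGen R E {i // Odd (deg i)} (VCImage φ)) ∧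
    ∀ (R : Type) [Ring R] [Nontrivial R] (G : Type) [Group G] (c : ℝ), 9 / 2 < c ^ 2 →
      ∀ (n : ℕ) (U : (Matrix (Fin n) (Fin n) (MonoidAlgebra R G))ˣ), IsTorsion U c := by
  refine ⟨?_, ?_⟩
  · intro R _ E G _ _ φ hφ ι _ _ deg d s hd hs A c hAs hc0 hc hA hthin e
    rcases hAs with hsym | ⟨hAA, hopp⟩
    · exact CT.F_main2 φ hφ deg d hd A hsym c hc0 hc hA hthin s hs e
    · have hA' : NormLE (A + adj A) c := norm_sym A hAA c hc0 hA
      have hco : ∀ i j g, (A i j).coeff g ≠ 0 → ((A + adj A) i j).coeff g ≠ 0 := by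
        intro i j g h
        rw [coeff_add_adj, hopp i j (fun h0 => h (by rw [h0]; rfl))]
        simpa using h
      have hthin' : Controlled φ (A + adj A) d ∨
          ∃ t, IsCt deg d t ∧ t * t = 0 ∧ Controlled φ (A + adj A) t := by
        rcases hthin with h | ⟨t, h1, h2, h3⟩
        · exact Or.inl fun i j e he => hco _ _ _ (h i j e he)
        · exact Or.inr ⟨t, h1, h2, fun i j e he => hco _ _ _ (h3 i j e he)⟩
      exact CT.F_main2 φ hφ deg d hd (A + adj A) (sym_add_adj A) c hc0 hc hA' hthin' s hs e
  · intro R _ _ G _ c hc n U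
    have hS : LT.Gens (Set.univ : Set R) :=
      ⟨Set.mem_univ _, fun _ _ => Set.mem_univ _, by simp⟩
    obtain ⟨m, C, hC, -, hX⟩ := CT.sthin_red_fin hS U c hc
    set X : Matrix (Fin n ⊕ Fin m) (Fin n ⊕ Fin m) (MonoidAlgebra R G) :=
      fromBlocks U.val 0 0 1 * C.val with hXd
    set Y : Matrix (Fin n ⊕ Fin m) (Fin n ⊕ Fin m) (MonoidAlgebra R G) :=
      C⁻¹.val * fromBlocks U⁻¹.val 0 0 1 with hYd
    have hXY : X * Y = 1 := by
      rw [hXd, hYd, Matrix.mul_assoc, ← Matrix.mul_assoc C.val, ← Units.val_mul, mul_inv_cancel,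
        Units.val_one, Matrix.one_mul, fromBlocks_multiply]
      simp [← Units.val_mul]
    have hYX : Y * X = 1 := by
      rw [hXd, hYd, Matrix.mul_assoc, ← Matrix.mul_assoc (fromBlocks U⁻¹.val 0 0 1),
        fromBlocks_multiply]
      simp [← Units.val_mul]
    set deg : (Fin n ⊕ Fin m) ⊕ (Fin n ⊕ Fin m) → ℤ := Sum.elim (fun _ => 1) (fun _ => 0) with hdeg
    have hodd : ∀ i, Odd (deg i) ↔ i.isLeft := by
      rintro (i | i) <;> simp [hdeg]
    have heven : ∀ i, Even (deg i) ↔ i.isRight := by
      rintro (i | i) <;> simp [hdeg]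
    let f : Fin n ⊕ Fin m ≃ {i // Odd (deg i)} :=
      { toFun := fun i => ⟨Sum.inl i, by simp [hdeg]⟩
        invFun := fun i => i.1.getLeft ((hodd _).1 i.2)
        left_inv := fun i => rfl
        right_inv := by
          rintro ⟨i | i, hi⟩
          · rfl
          · exact absurd ((hodd _).1 hi) (by simp) }
    let f' : Fin n ⊕ Fin m ≃ {i // Even (deg i)} :=
      { toFun := fun i => ⟨Sum.inr i, by simp [hdeg]⟩
        invFun := fun i => i.1.getRight ((heven _).1 i.2)
        left_inv := fun i => rfl
        right_inv := by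
          rintro ⟨i | i, hi⟩
          · exact absurd ((heven _).1 hi) (by simp)
          · rfl }
    refine ⟨m, C, (Fin n ⊕ Fin m) ⊕ (Fin n ⊕ Fin m), inferInstance, inferInstance, deg,
      fromBlocks 0 X 0 0, fromBlocks 0 0 Y 0, fromBlocks 0 (pat X) 0 0, f.symm.trans f', f, hC,
      ⟨?_, ?_⟩, ⟨?_, ?_⟩, ?_, ⟨?_, ?_⟩, ?_, ?_, ?_⟩
    · rintro (i | i) (j | j) h
      · exact absurd rfl h
      · simp [hdeg]
      · exact absurd rfl h
      · exact absurd rfl h
    · rw [fromBlocks_multiply]; simp
    · rintro (i | i) (j | j) h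
      · exact absurd rfl h
      · exact absurd rfl h
      · simp [hdeg]
      · exact absurd rfl h
    · rw [fromBlocks_multiply, fromBlocks_multiply, hXY, hYX, fromBlocks_add]
      simp
    · rw [fromBlocks_multiply]; simp
    · rw [fromBlocks_multiply]; simp
    · rintro (i | i) (j | j) h
      · exact absurd rfl h
      · rfl
      · exact absurd rfl h
      · exact absurd rfl h
    · intro x
      have h1 : x ᵥ* toReal (fromBlocks (0 : Matrix (Fin n ⊕ Fin m) (Fin n ⊕ Fin m)
          (MonoidAlgebra ℤ G)) (pat X) (0 : Matrix (Fin n ⊕ Fin m) (Fin n ⊕ Fin m)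
          (MonoidAlgebra ℤ G)) 0) =
          Sum.elim (0 : Fin n ⊕ Fin m → MonoidAlgebra ℝ G)
            ((x ∘ Sum.inl) ᵥ* toReal (pat X)) := by
        funext j
        rcases j with j | j <;> simp [Matrix.vecMul, dotProduct, toReal]
      have hz : normSq (0 : Fin n ⊕ Fin m → MonoidAlgebra ℝ G) = 0 := by simp [normSq]
      rw [h1, normSq_elim, hz, zero_add, normSq_sum x]
      have h2 := hX (x ∘ Sum.inl)
      have h3 := normSq_nonneg (x ∘ Sum.inr : Fin n ⊕ Fin m → MonoidAlgebra ℝ G)
      have h4 : 0 ≤ c ^ 2 := sq_nonneg c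
      nlinarith [mul_nonneg h4 h3]
    · rintro (i | i) (j | j) g h
      · simp at h
      · exact (pat_ne X i j g).2 h
      · simp at h
      · simp at h
    · ext1 i j
      change X i j + 0 = X i j
      rw [add_zero]

end Pool.Agent.Results.MP_5d3e93_al.CriticalComplexes
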