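import Pool.Agent.N510.CT.GrMod

set_option autoImplicit false

/-!
# Modules over crossed products at the norm `3 / √2`

Let `S` be a crossed product of the group `G` (a `G`-graded ring with units of all degrees; for
example the endomorphism ring of a `G`-invariant object in the twisted group category of an additive
`G`-category). An `S`-module with a presentation which is controlled over `G` by a matrix over `ℤG`
of operator norm at most `3 / √2` (the bound included) is a direct sum of modules induced from the
subrings which belong to virtually cyclic subgroups of `G`. For every larger bound all finitely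
presented `S`-modules have such a presentation.
-/

namespace Pool.Agent.Results.MP_5d3e93_al.CriticalNormCrossed

open TH57.Thr TH6.PF TH6.FB Pool.Agent.N510

/-- `CrossedProduct S G` (from `Pool.Agent.TH6.FB.Cp`): a grading of the ring `S` by `G`, given by
`X.δ x = ∑ x_g g`, with units of all degrees. `CtrlC X A M`: if the component of degree `g` of
`M i j` is not zero then the coefficient of `A i j` at `g` is not zero. `NormLE A c`: right
multiplication by `A` on `ℓ²(G)^m` has norm at most `|c|`. `Coker M`: the cokernel of the right
multiplication with `M` on row vectors. `CrossedSum X P`: `P` is a finite direct sum of modules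
induced from subrings `X.sub V` (components with degrees in `V`), `V` a virtually cyclic (cyclic, if
`G` is torsion-free) subgroup, projective over these subrings if `P` is projective. -/
theorem result :
    (∀ c : ℝ, 0 < c → c ^ 2 ≤ 9 / 2 → ∀ (S : Type) [Ring S] (G : Type) [Group G]
      (X : CrossedProduct S G) (P : Type) [AddCommGroup P] [Module S P] (m n : ℕ)
      (M : Matrix (Fin m) (Fin n) S) (A : Matrix (Fin m) (Fin n) (MonoidAlgebra ℤ G)),
      Nonempty (P ≃ₗ[S] Coker M) → NormLE A c → CtrlC X A M → CrossedSum X P) ∧
    ∀ c : ℝ, 9 / 2 < c ^ 2 → ∀ (S : Type) [Ring S] (G : Type) [Group G]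
      (X : CrossedProduct S G) (P : Type) [AddCommGroup P] [Module S P],
      Module.FinitePresentation S P →
      ∃ (m n : ℕ) (M : Matrix (Fin m) (Fin n) S)
        (A : Matrix (Fin m) (Fin n) (MonoidAlgebra ℤ G)),
        Nonempty (P ≃ₗ[S] Coker M) ∧ NormLE A c ∧ CtrlC X A M := by
  refine ⟨?_, ?_⟩
  · rintro c hc0 hc S _ G _ X P _ _ m n M A ⟨e⟩ hA hM
    exact CT.ctrl_crossed2 X P m n M e A c hc0 hc hA hM
  · intro c hc S _ G _ X P _ _ hP
    obtain ⟨m, n, M, A, h1, h2, h3⟩ := CT.crossed_pres X P hP c hc
    exact ⟨m, n, M, A, h3, h1, h2⟩

end Pool.Agent.Results.MP_5d3e93_al.CriticalNormCrossed
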