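import Pool.Agent.W647.HX2

/-!
# The even Chern character of `K₀` of group rings and graded rings at the elements of finite order

Let `G` be any group (torsion is allowed), `R` any ring and `g ∈ G` an element of finite order. The
class cocycles of degree `2 k` for `g`, with values in an abelian group `A`, pair with the idempotent
matrices `e = ∑ e_s s` over `R[G]`: up to the factor `(2 k)! / k!` this is

`τ = ∑ T (tr (e_{w 0} e_{w 1} ⋯ e_{w (2 k)}), c (t, t w₀, …, t w₀ ⋯ w_{2 k - 1}))`,

the sum over all `w ∈ G ^ (2 k + 1)` whose product `y` is conjugate to `g`, where `t y t⁻¹ = g`: the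
component in degree `2 k`, at the conjugacy class of `g`, of the Chern character of `K₀(R[G])`. The
assembly map of the Farrell-Jones conjecture leaves no room for these components if `k ≥ 1` and, for
example, `R` is regular. We prove that they are divisible by all integers, for `k ≥ 1`, all groups, all
coefficients and all elements `g` of finite order, and the same for all rings graded by `G`, for
example all crossed products `R * G`.

The proof is that of the files `HV1`, ..., `HX2` of the starting library (`Pool/Agent/W647`, helper647),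
whose even part has not been used in a theorem so far.
-/

set_option autoImplicit false

namespace Pool.Agent.Results.MP_5d3e93_al.EvenChernFiniteOrder

open Pool.Agent.W647.HX1

universe u1 u2 u3 u4 u5

/-- The element `τ` of the abelian group `M` is infinitely divisible up to the factor `D`:
`D τ` is divisible by all integers `N ≠ 0`; so `τ = 0` if `N M = 0` for some `N` prime to `D`, and
`D τ = 0` if no element of `M` but `0` is divisible by all `N`. -/
def InfinitelyDivisible {M : Type u4} [AddCommGroup M] (D : ℕ) (τ : M) : Prop :=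
  (∀ N : ℕ, N ≠ 0 → ∃ y : M, D • τ = N • y) ∧
  (∀ N : ℕ, N ≠ 0 → Nat.Coprime N D → (∀ m : M, N • m = 0) → τ = 0) ∧
  ((∀ m : M, (∀ N : ℕ, N ≠ 0 → ∃ y : M, m = N • y) → m = 0) → D • τ = 0)

theorem inf_of_dvd {M : Type u4} [AddCommGroup M] {D : ℕ} {τ : M}
    (h : ∀ N : ℕ, N ≠ 0 → ∃ y : M, D • τ = N • y) : InfinitelyDivisible D τ := by
  refine ⟨h, fun N hN hc h0 => ?_, fun h0 => h0 _ h⟩
  obtain ⟨y, hy⟩ := h N hN
  rw [h0] at hy
  have h1 := Nat.gcd_eq_gcd_ab N D
  rw [Nat.Coprime.gcd_eq_one hc] at h1
  have h2 : ((N : ℤ) * Nat.gcdA N D + (D : ℤ) * Nat.gcdB N D) • τ = τ := by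
    rw [← h1, Nat.cast_one, one_smul]
  rw [← h2, add_smul, mul_comm (N : ℤ), mul_comm (D : ℤ), mul_smul, mul_smul, natCast_zsmul,
    natCast_zsmul, h0, hy, smul_zero, smul_zero, add_zero]

/-- Let `G` be any group, `g ∈ G` an element of finite order, `c` an `A`-valued class cocycle for `g`
of degree `2 k`, `k ≥ 1`, and `t` a map with `t(y) y t(y)⁻¹ = g` for all `y` conjugate to `g`.

(1) Let `e = ∑ e_s s` be an idempotent matrix over the group ring `R[G]`, `R` any ring, and
`T : R × A → M` biadditive with `T (x y, a) = T (y x, a)`. Then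
`τ = ∑ T (tr (e_{w 0} e_{w 1} ⋯ e_{w (2 k)}), c (t, t w₀, …, t w₀ ⋯ w_{2 k - 1}))`, the sum over all
`w ∈ G ^ (2 k + 1)` whose product `y` is conjugate to `g`, `t = t(y)`, is infinitely divisible up to
the factor `(2 k)! / k!`.

(2) The same holds for idempotent matrices over any ring `S = ⨁ S_s` graded by `G`, for example over
the crossed products `R * G`, where `e_s` is the component of degree `s` of `e`. -/
theorem result (G : Type u1) [Group G] (g : G) (hg : IsOfFinOrder g) (t : G → G)
    (ht : ∀ y, IsConj y g → t y * y * (t y)⁻¹ = g) (k : ℕ) (hk : k ≠ 0)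
    (A : Type u3) [AddCommGroup A] (c : (Fin (2 * k + 1) → G) → A) (hc : IsClassCoc g c)
    (M : Type u4) [AddCommGroup M] (d : Type u5) [Fintype d] [DecidableEq d] :
    (∀ (R : Type u2) [Ring R] (T : R →+ A →+ M), (∀ x y, T (x * y) = T (y * x)) →
      ∀ e : Matrix d d (MonoidAlgebra R G), e * e = e →
        InfinitelyDivisible ((2 * k).descFactorial k)
          (evTau T g t c fun s => e.map fun y => y.coeff s)) ∧
    ∀ (S : Type u2) [Ring S] (𝒮 : G → AddSubgroup S) [DecidableEq G] [DirectSum.Decomposition 𝒮],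
      (1 : S) ∈ 𝒮 1 → (∀ g h : G, ∀ x ∈ 𝒮 g, ∀ y ∈ 𝒮 h, x * y ∈ 𝒮 (g * h)) →
      ∀ T : S →+ A →+ M, (∀ x y, T (x * y) = T (y * x)) →
      ∀ e : Matrix d d S, e * e = e →
        InfinitelyDivisible ((2 * k).descFactorial k)
          (evTau T g t c fun s => e.map fun x => (DirectSum.decompose 𝒮 x s : S)) := by
  refine ⟨fun R _ T hT e he => inf_of_dvd fun N hN => ?_,
    fun S _ 𝒮 _ _ h1 hmul T hT e he => inf_of_dvd fun N hN => ?_⟩
  · exact evTau_dvd T hT hg ht hk hc e he N hN
  · exact graded_even 𝒮 h1 hmul T hT hg ht hk hc e he N hN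

end Pool.Agent.Results.MP_5d3e93_al.EvenChernFiniteOrder
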