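import Pool.Agent.N24.FR.Main

/-!
# Extensions with kernels in the unit groups of algebras that are towers of free extensions

`C` is any class of groups with the closure properties `ClosedE C`, all of which are known for the
class of the groups that satisfy the Farrell–Jones conjecture with coefficients in additive categories
and finite wreath products.

Let `N` be a normal subgroup of `G`, let `N` and `G ⧸ N` be in `C`. Suppose that for each `g` in `G` of
infinite order modulo `N` there are a commutative ring `R` such that all `GL_d(R)` are in `C`, an
`R`-algebra `A`, an embedding of `N` in the group of units of `A`, an automorphism `α` of the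
`R`-algebra `A` which extends the conjugation by `g` on `N`, and a set `ℱ` of subalgebras of `A` such that

* every finite subset of `A` lies in some member of `ℱ`,
* the members of `ℱ` are free `R`-modules of finite rank,
* if `B₀ ⊆ B` are in `ℱ` then `B` is free as a left `B₀`-module,
* `α B` is in `ℱ` for all `B` in `ℱ`.

Then `G` is in `C`.

Here `α` need not preserve any member of `ℱ`, and the algebras need not be semisimple. Examples:

* `A` is the algebra of the `n × n`-matrices over the group ring `R[L]` of a locally finite group `L`, with
  the subalgebras of the matrices over `R[F]`, `F` a finite subgroup of `L`. So `GL_n(R[L]) ⋊ Q` is in `C` for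
  every `Q` in `C` which acts by automorphisms of `L`, for instance for `R = ℤ`, and this also holds for
  all subgroups of `GL_n(R[L])` which are invariant under `Q`.
* `A` is the tensor product of copies `A_i`, `i ∈ I`, of an algebra which is free of finite rank over `R`,
  for an infinite set `I`, with the finite tensor products of the factors, and `Q` permutes the factors (and
  acts on them).

Outline of the proof. Let `E` be a finite subset of `N`, let `B₀` be a member of `ℱ` which contains the
image of `E` and its inverses, and let `B` be a member which contains `B₀` and `α B₀`. Then `B` is a free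
left module over `B₀` and over `α B₀`, and the ranks are equal because their products with the rank of
`B₀` over `R` are the rank of `B`. So there is an `R`-linear automorphism `T` of `B` such that
`T (b v) = α(b) T(v)` for all `b` in `B₀`, and the conjugation by `g` on `E` is realized in `GL_d(R)`, where `d`
is the rank of `B` over `R`. Then the criterion `MP_490288_al.RealizationCriterion` applies.
-/

set_option autoImplicit false

namespace Pool.Agent.Results.MP_5d3e93_al.FreeTowerKernels

open Pool.Agent.Y110.FJ Pool.Agent.N24.FR

theorem result (C : ∀ (G : Type) [Group G], Prop) (hC : ClosedE C)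
    (G : Type) [Group G] (N : Subgroup G) [hN : N.Normal] (hCN : C N) (hQ : C (G ⧸ N))
    (h : ∀ g : G, (∀ n : ℕ, 0 < n → g ^ n ∉ N) →
      ∃ (R A : Type) (_ : CommRing R) (_ : Ring A) (_ : Algebra R A) (ℱ : Set (Subalgebra R A))
        (u : N →* Aˣ) (α : A ≃ₐ[R] A),
        (∀ d : ℕ, C (Matrix.GeneralLinearGroup (Fin d) R)) ∧ IsFreeTower ℱ ∧
        (∀ B ∈ ℱ, B.map (α : A →ₐ[R] A) ∈ ℱ) ∧ Function.Injective u ∧
        (∀ n : N, α (u n) = u ⟨g * n * g⁻¹, hN.conj_mem n n.2 g⟩)) : C G :=
  main hC G N hCN hQ h

end Pool.Agent.Results.MP_5d3e93_al.FreeTowerKernels
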